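import Mathlib
import Pool.Agent.N290.RK.Stm3

/-!
# Project RK (helper290), part GLB (helper124): from local to global
-/

set_option autoImplicit false

open Complex MeasureTheory Set Filter Topology
open scoped ENNReal

namespace Pool.Agent.N124.RK

open Pool.Agent.N290.RJ Pool.Agent.N290.RK

variable {d : ℕ}

/-- the two lists together -/
def cat {M L : ℕ} (f : Fin M → E d → ℂ) (G : Fin L → E d → ℂ) : Fin (M + L) → E d → ℂ :=
  Fin.addCases (motive := fun _ => E d → ℂ) f G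

theorem cat_left {M L : ℕ} (f : Fin M → E d → ℂ) (G : Fin L → E d → ℂ) (j : Fin M) :
    cat f G (Fin.castAdd L j) = f j := Fin.addCases_left (motive := fun _ => E d → ℂ) j

theorem cat_right {M L : ℕ} (f : Fin M → E d → ℂ) (G : Fin L → E d → ℂ) (l : Fin L) :
    cat f G (Fin.natAdd M l) = G l := Fin.addCases_right (motive := fun _ => E d → ℂ) l

theorem forall_cat {M L : ℕ} {P : Fin (M + L) → Prop} (h1 : ∀ j, P (Fin.castAdd L j))
    (h2 : ∀ l, P (Fin.natAdd M l)) : ∀ i, P i := fun i => Fin.addCases h1 h2 i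

/-- lower bound -/
theorem arb_lower {M L : ℕ} {ε A : ℝ} {f : Fin M → E d → ℂ} {G κ : Fin L → E d → ℂ}
    (h : Arb ε A f G κ) {z : E d} (hz : z ∈ B d) :
    min ε (1 / (|A| + 1)) ≤ ∑ j, ‖cat f G j z‖ := by
  rw [Fin.sum_univ_add]
  simp only [cat_left, cat_right]
  have h0 : ∀ (n : ℕ) (F : Fin n → E d → ℂ), 0 ≤ ∑ j, ‖F j z‖ := fun n F =>
    Finset.sum_nonneg fun _ _ => norm_nonneg _
  by_cases hs : ∀ j, ‖f j z‖ < ε
  · have h1 := h.k3 z hz hs
    have h2 := h.k2
    have hA : 0 < |A| + 1 := by positivity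
    have h3 : (1 : ℝ) ≤ (|A| + 1) * ∑ l, ‖G l z‖ := by
      calc (1 : ℝ) = ‖∑ l, G l z * κ l z‖ := by rw [h1, norm_one]
        _ ≤ ∑ l, ‖G l z * κ l z‖ := norm_sum_le _ _
        _ ≤ ∑ l, (|A| + 1) * ‖G l z‖ := by
            refine Finset.sum_le_sum fun l _ => ?_
            rw [norm_mul, mul_comm]
            refine mul_le_mul_of_nonneg_right ?_ (norm_nonneg _)
            have h4 := h2 l z hz hs
            have h5 := le_abs_self A
            linarith
        _ = _ := by rw [Finset.mul_sum]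
    have h4 : 1 / (|A| + 1) ≤ ∑ l, ‖G l z‖ := by
      rw [div_le_iff₀ hA]; linarith
    have h5 := h0 M f
    exact (min_le_right _ _).trans (by linarith)
  · push Not at hs
    obtain ⟨j, hj⟩ := hs
    have h1 : ‖f j z‖ ≤ ∑ j, ‖f j z‖ :=
      Finset.single_le_sum (f := fun j => ‖f j z‖) (fun _ _ => norm_nonneg _) (Finset.mem_univ j)
    have h2 := h0 L G
    exact (min_le_left _ _).trans (by linarith)

/-- from local to global -/
theorem GlB_of (d : ℕ) (hT : LT d) (h4 : D4N d) (hL : LOC d) : GlB d := by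
  intro M L ε A K ω hε hK hω hω0 hint
  obtain ⟨C, ρ, hρ, hloc⟩ := hT M L ε A K ω hε hK hω hω0 hint
  have hδ : 0 < min ε (1 / (|A| + 1)) := lt_min hε (by positivity)
  obtain ⟨C', hC'⟩ := hL (M + L) (min ε (1 / (|A| + 1)))
    {F : (Fin M → E d → ℂ) × (Fin L → E d → ℂ) × (Fin L → E d → ℂ) // Arb ε A F.1 F.2.1 F.2.2 ∧
      ∀ j, ∀ z ∈ B d, ∀ ξ, ‖fderiv ℂ (F.1 j) z ξ‖ ≤ ω (1 - N z) * len z ξ}
    (fun a => cat a.1.1 a.1.2.1) hδ
    (fun a => forall_cat (fun j => by
        show DifferentiableOn ℂ (cat a.1.1 a.1.2.1 (Fin.castAdd L j)) (B d)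
        rw [cat_left]; exact a.2.1.f1 j)
      (fun l => by
        show DifferentiableOn ℂ (cat a.1.1 a.1.2.1 (Fin.natAdd M l)) (B d)
        rw [cat_right]; exact a.2.1.g1 l))
    (fun a => forall_cat (fun j => by
        intro z hz
        show ‖cat a.1.1 a.1.2.1 (Fin.castAdd L j) z‖ ≤ 1
        rw [cat_left]; exact a.2.1.f2 j z hz)
      (fun l => by
        intro z hz
        show ‖cat a.1.1 a.1.2.1 (Fin.natAdd M l) z‖ ≤ 1
        rw [cat_right]; exact a.2.1.g2 l z hz))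
    (fun a z hz => arb_lower a.2.1 hz)
    (fun p hp => by
      refine ⟨ρ, C, hρ, fun a => ?_⟩
      refine h4 (M + L) C ρ p (cat a.1.1 a.1.2.1) (forall_cat (fun j => by
        rw [cat_left]; exact a.2.1.f1 j) (fun l => by rw [cat_right]; exact a.2.1.g1 l)) ?_
      intro k
      obtain ⟨g, h, hg, hh, hgh⟩ := hloc p hp a.1.1 a.1.2.1 a.1.2.2 a.2.1 a.2.2 k
      refine ⟨cat g h, forall_cat (fun j => by rw [cat_left]; exact hg j)
        (fun l => by rw [cat_right]; exact hh l), ?_⟩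
      intro z hz hzp
      obtain ⟨h1, h2, h3⟩ := hgh z hz hzp
      refine ⟨forall_cat (fun j => by rw [cat_left]; exact h1 j)
        (fun l => by rw [cat_right]; exact h2 l), ?_⟩
      rw [Fin.sum_univ_add]
      simp only [cat_left, cat_right]
      exact h3)
  refine ⟨C', fun f G κ hA hgrad => ?_⟩
  obtain ⟨g, hg1, hg2⟩ := hC' ⟨(f, G, κ), hA, hgrad⟩
  refine ⟨fun j => g (Fin.castAdd L j), fun l => g (Fin.natAdd M l), fun j => hg1 _,
    fun l => hg1 _, fun z hz => ?_⟩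
  obtain ⟨h1, h2⟩ := hg2 z hz
  refine ⟨fun j => h1 _, fun l => h1 _, ?_⟩
  rw [Fin.sum_univ_add] at h2
  simp only [cat_left, cat_right] at h2
  exact h2

end Pool.Agent.N124.RK
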